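import Mathlib

/-!
# Lower bound for universal point sets: definitions

(MP_d8a706_co.)  All the definitions used by the modules of the folder `UPS`.
-/

set_option autoImplicit false

namespace UPS

open Function

/-- points of the plane -/
abbrev Pt := ℝ × ℝ

/-! ### Triangles -/

/-- twice the signed area of the triangle `t` -/
def ar (t : Fin 3 → Pt) : ℝ :=
  ((t 1).1 - (t 0).1) * ((t 2).2 - (t 0).2) - ((t 1).2 - (t 0).2) * ((t 2).1 - (t 0).1)

/-- barycentric coordinates with respect to the triangle `t` -/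
noncomputable def co (t : Fin 3 → Pt) (p : Pt) (i : Fin 3) : ℝ := ar (update t i p) / ar t

/-- `p` lies in the interior of the (non-degenerate) triangle `t` -/
def Inside (t : Fin 3 → Pt) (p : Pt) : Prop := ∀ i, 0 < ar t * ar (update t i p)

/-! ### Counting points -/

open Classical in
/-- the points of `S` inside `t` -/
noncomputable def inS (S : Finset Pt) (t : Fin 3 → Pt) : Finset Pt := S.filter (fun p => Inside t p)

/-- the number of points of `S` inside `t` -/
noncomputable def N (S : Finset Pt) (t : Fin 3 → Pt) : ℕ := (inS S t).card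

open Classical in
/-- the (half-open) face of the subdivision of `t` by `q` which contains `p` -/
noncomputable def fc (t : Fin 3 → Pt) (q p : Pt) : Fin 3 :=
  if co t p 0 * co t q 1 ≤ co t p 1 * co t q 0 ∧ co t p 0 * co t q 2 ≤ co t p 2 * co t q 0 then 0
  else if co t p 1 * co t q 2 ≤ co t p 2 * co t q 1 then 1 else 2

open Classical in
/-- the points of `S` in the `i`-th half-open face -/
noncomputable def inF (S : Finset Pt) (t : Fin 3 → Pt) (q : Pt) (i : Fin 3) : Finset Pt :=
  S.filter (fun p => Inside t p ∧ p ≠ q ∧ fc t q p = i)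

/-- the number of points of `S` in the `i`-th half-open face -/
noncomputable def NP (S : Finset Pt) (t : Fin 3 → Pt) (q : Pt) (i : Fin 3) : ℕ :=
  (inF S t q i).card

/-! ### Trees (stacked triangulations of a triangle) -/

/-- ternary trees; `node c` : the triangle is subdivided by one vertex, and the face in which the
`i`-th corner is replaced by the new vertex is subdivided according to `c i` -/
inductive T : Type
  | leaf : T
  | node : (Fin 3 → T) → T

/-- number of vertices (nodes) -/
def T.size : T → ℕ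
  | .leaf => 0
  | .node c => 1 + ∑ i, (c i).size

/-- the tree `t` can be drawn properly inside the triangle `τ` with vertices in `S` -/
def D (S : Finset Pt) : T → (Fin 3 → Pt) → Prop
  | .leaf, _ => True
  | .node c, τ => ∃ q ∈ S, Inside τ q ∧ ∀ i, D S (c i) (update τ i q)

/-! ### Letters and words -/

/-- a step of the spine: the direction of the spine and the two hanging trees -/
abbrev Letter := Fin 3 × T × T

/-- size of a letter -/
def lsz (l : Letter) : ℕ := 1 + l.2.1.size + l.2.2.size

/-- size of a word -/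
def wsz : List Letter → ℕ
  | [] => 0
  | l :: w => lsz l + wsz w

/-- the tree of a word -/
def toT : List Letter → T
  | [] => .leaf
  | l :: w => .node (fun i => if i = l.1 then toT w else if i = l.1 + 1 then l.2.1 else l.2.2)

/-- reversed drawability of a word inside a triangle -/
def Rev (S : Finset Pt) : List Letter → (Fin 3 → Pt) → Prop
  | [], _ => True
  | l :: w, τ => ∃ q ∈ S, Inside τ q ∧
      D S l.2.1 (update (update τ l.1 q) (l.1 + 1) (τ l.1)) ∧
      D S l.2.2 (update (update τ l.1 q) (l.1 + 2) (τ l.1)) ∧ Rev S w (update τ l.1 q)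

/-- `A` holds for a reversed prefix and `B` for the corresponding suffix (up to dropping one
letter) -/
def Cut (A B : List Letter → Prop) : List Letter → List Letter → Prop
  | [], p => A p ∧ B []
  | l :: w, p => (A p ∧ (B (l :: w) ∨ B w)) ∨ Cut A B w (l :: p)

/-- the word `w` is drawn in `S` -/
def Drawn (S : Finset Pt) (w : List Letter) : Prop :=
  ∃ τ τ' : Fin 3 → Pt, (∀ i, τ i ∈ S) ∧ (∀ i, τ' i ∈ S) ∧ N S τ + N S τ' ≤ S.card ∧
    Cut (fun p => Rev S p τ) (fun s => D S (toT s) τ') w []

/-! ### Abstract graphs and drawings -/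

/-- non-crossing (for pairs of edges without common end point) -/
def NC {V : Type} (adj : V → V → Prop) (ψ : V → Pt) : Prop :=
  ∀ a b c d, adj a b → adj c d → a ≠ c → a ≠ d → b ≠ c → b ≠ d →
    Disjoint (segment ℝ (ψ a) (ψ b)) (segment ℝ (ψ c) (ψ d))

/-- `τ` is a triangle and `u` is a vertex adjacent to its three corners -/
def K4 {V : Type} (adj : V → V → Prop) (τ : Fin 3 → V) (u : V) : Prop :=
  (∀ i j, i ≠ j → adj (τ i) (τ j)) ∧ ∀ i, adj u (τ i)

/-- the graph contains the stacked graph of `t` in the triangle `τ`; the root is not `u` -/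
def Has {V : Type} (adj : V → V → Prop) : T → (Fin 3 → V) → V → Prop
  | .leaf, _, _ => True
  | .node c, τ, u => ∃ v, v ≠ u ∧ (∀ i, adj v (τ i)) ∧ ∀ i, Has adj (c i) (update τ i v) (τ i)

/-! ### The centroid drawing of a stacked graph -/

/-- centroid -/
noncomputable def cen (τ : Fin 3 → Pt) : Pt := (1 / 3 : ℝ) • (τ 0 + τ 1 + τ 2)

/-- the new vertices of the centroid drawing -/
noncomputable def Vt : T → (Fin 3 → Pt) → Set Pt
  | .leaf, _ => ∅
  | .node c, τ => {cen τ} ∪ ⋃ i, Vt (c i) (update τ i (cen τ))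

/-- the new edges of the centroid drawing, directed from the newer to the older vertex -/
def Ed : T → (Fin 3 → Pt) → Pt → Pt → Prop
  | .leaf, _, _, _ => False
  | .node c, τ, a, b => (a = cen τ ∧ ∃ i, b = τ i) ∨ ∃ i, Ed (c i) (update τ i (cen τ)) a b

/-- adjacency in the centroid drawing, outer triangle included -/
def Ad (t : T) (τ : Fin 3 → Pt) (a b : Pt) : Prop :=
  Ed t τ a b ∨ Ed t τ b a ∨ ∃ i j, i ≠ j ∧ a = τ i ∧ b = τ j

/-! ### Finitely supported expectations -/

/-- `E` is the expectation with respect to a finitely supported probability measure on the set of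
all `a` with `P a` -/
def IsExp {α : Type} (P : α → Prop) (E : (α → ℝ) → ℝ) : Prop :=
  ∃ (ι : Type) (_ : Fintype ι) (w : ι → ℝ) (x : ι → α), (∀ i, 0 ≤ w i) ∧ ∑ i, w i = 1 ∧
    (∀ i, P (x i)) ∧ ∀ f, E f = ∑ i, w i * f (x i)

/-- expectation over random trees with `k` nodes; the law of the sizes of the three subtrees is
`ρ` -/
noncomputable def ET (ρ : ℕ → ℕ → ℕ → ℝ) : ℕ → (T → ℝ) → ℝ
  | 0, f => f .leaf
  | (k + 1), f => ∑ a : Fin (k + 1), ∑ b : Fin (k + 1 - a), ρ a b (k - a - b) *
      ET ρ a (fun t0 => ET ρ b (fun t1 => ET ρ (k - a - b) (fun t2 => f (.node ![t0, t1, t2]))))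
  termination_by k => k
  decreasing_by all_goals omega

/-- expectation over random letters -/
noncomputable def EL (R : ℕ) (ρ : ℕ → ℕ → ℕ → ℝ) (π : ℕ → ℕ → ℝ) (f : Letter → ℝ) : ℝ :=
  ∑ d : Fin 3, ∑ b ∈ Finset.range (R + 1), ∑ c ∈ Finset.range (R + 1),
    (π b c / 3) * ET ρ b (fun t1 => ET ρ c (fun t2 => f (d, t1, t2)))

/-- expectation over words with `a` letters -/
noncomputable def ER (E : (Letter → ℝ) → ℝ) : ℕ → (List Letter → ℝ) → ℝ
  | 0, f => f []
  | a + 1, f => E (fun l => ER E a (fun u => f (l :: u)))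

/-- expectation over the words read until the remaining budget is at most `c` -/
noncomputable def EW (E : (Letter → ℝ) → ℝ) (c : ℕ) (r : ℕ) (f : List Letter → ℝ) : ℝ :=
  if _h : r ≤ c then f [] else E (fun l => EW E c (r - lsz l) (fun w => f (l :: w)))
  termination_by r
  decreasing_by simp only [lsz]; omega

open Classical in
/-- indicator -/
noncomputable def ind (p : Prop) : ℝ := if p then 1 else 0

/-! ### Numerical certificates -/

/-- `ρ` is a law for the sizes of the subtrees -/
def LawOK (R : ℕ) (ρ : ℕ → ℕ → ℕ → ℝ) : Prop :=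
  (∀ a b c, 0 ≤ ρ a b c) ∧
    ∀ k < R, ∑ a : Fin (k + 1), ∑ b : Fin (k + 1 - a), ρ a b (k - a - b) = 1

/-- `P k m` is a certified upper bound for the probability that a random tree with `k` nodes can
be drawn in a triangle with at most `m` points -/
def TableOK (R : ℕ) (ρ : ℕ → ℕ → ℕ → ℝ) (P : ℕ → ℕ → ℝ) : Prop :=
  (∀ k m, 0 ≤ P k m) ∧ (∀ k, Monotone (P k)) ∧ (∀ m, P 0 m = 1) ∧
    ∀ k < R, ∀ m, k + 1 ≤ m → P (k + 1) m < 1 →
      ∃ f : ℕ → ℝ, Monotone f ∧
        (∀ x y z, x + y + z + 1 = m →
          ∑ a : Fin (k + 1), ∑ b : Fin (k + 1 - a),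
            ρ a b (k - a - b) * (P a x * P b y * P (k - a - b) z) ≤ f x + f y + f z) ∧
        3 * ∑ j ∈ Finset.range m, f j ≤ P (k + 1) m

/-- the spine inequality -/
def SpineOK (R : ℕ) (π : ℕ → ℕ → ℝ) (P : ℕ → ℕ → ℝ) (β θ : ℝ) : Prop :=
  (∀ b c, 0 ≤ π b c) ∧
  (∑ b ∈ Finset.range (R + 1), ∑ c ∈ Finset.range (R + 1), π b c = 1) ∧ 1 ≤ β ∧ 1 ≤ θ ∧
  ∃ H : ℕ → ℝ, Antitone H ∧ (∀ j, 0 ≤ H j) ∧ (∀ n, ∑ j ∈ Finset.range n, H j ≤ 1) ∧
    ∀ y z, ∑ b ∈ Finset.range (R + 1), ∑ c ∈ Finset.range (R + 1),
      π b c * (θ ^ (1 + b + c) * (P b y * P c z)) ≤ β ^ (1 + y + z) * H (y + z)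

end UPS
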