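import Pool.Agent.Lib.UPS.Defs

/-!
# Universal point sets: the definitions of the statement
-/

set_option autoImplicit false

namespace UPS

open Function

/-- `φ` is a planar straight-line drawing of `G`: it is injective, the closed segments joining the
images of adjacent vertices pairwise meet only in (images of) shared end points, and no vertex
lies on an edge except at its ends. -/
def IsDrawing {V : Type} (G : SimpleGraph V) (φ : V → ℝ × ℝ) : Prop :=
  Injective φ ∧
  (∀ a b c d, G.Adj a b → G.Adj c d → s(a, b) ≠ s(c, d) →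
    ∀ x, x ∈ segment ℝ (φ a) (φ b) → x ∈ segment ℝ (φ c) (φ d) →
      ∃ v, (v = a ∨ v = b) ∧ (v = c ∨ v = d) ∧ x = φ v) ∧
  (∀ v a b, G.Adj a b → φ v ∈ segment ℝ (φ a) (φ b) → v = a ∨ v = b)

/-- a graph is planar if it has a planar straight-line drawing -/
def IsPlanar {V : Type} (G : SimpleGraph V) : Prop := ∃ φ : V → ℝ × ℝ, IsDrawing G φ

/-- `S` supports `G` -/
def Supports {V : Type} (S : Finset (ℝ × ℝ)) (G : SimpleGraph V) : Prop :=
  ∃ φ : V → ℝ × ℝ, IsDrawing G φ ∧ ∀ v, φ v ∈ S

/-- `S` is universal for `n`-vertex planar graphs -/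
def IsUniversal (S : Finset (ℝ × ℝ)) (n : ℕ) : Prop :=
  ∀ k ≤ n, ∀ G : SimpleGraph (Fin k), IsPlanar G → Supports S G

/-- the minimum size of a universal configuration for `n`-vertex planar graphs -/
noncomputable def minUniversal (n : ℕ) : ℕ :=
  sInf {m | ∃ S : Finset (ℝ × ℝ), S.card = m ∧ IsUniversal S n}

end UPS
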